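import Pool.Agent.MP_5c28a4_al.H89S.Spec

/-!
Definitions, basic facts and the statements of the parts for `SHaus`.
-/

set_option autoImplicit false

namespace Pool.Agent.MP_5c28a4_al.H89S.HausA

section Basic

variable {Γ I : Type} [Group Γ] [Fintype I] [DecidableEq I]

/-- basis vector -/
noncomputable def bas (Γ : Type) [Group Γ] {I : Type} [DecidableEq I] (i : I) : I → QQ Γ :=
  Pi.single i 1

theorem del_bas (γ : I → Γ) (i : I) : del γ (bas Γ i) = MonoidAlgebra.of ℤ Γ (γ i) - 1 := by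
  simp [del, bas]

theorem eq_sum_bas (x : I → QQ Γ) : x = ∑ i, x i • bas Γ i := by
  funext k
  simp [bas, Finset.sum_apply, Pi.single_apply]

theorem lin_ext {W : Type} [AddCommGroup W] [Module (QQ Γ) W] {f g : (I → QQ Γ) →ₗ[QQ Γ] W}
    (h : ∀ i, f (bas Γ i) = g (bas Γ i)) : f = g := by
  refine LinearMap.ext fun x => ?_
  rw [eq_sum_bas x]
  simp [map_sum, h]

/-- the element of `Th γ` with given values on the basis -/
noncomputable def mkTh (γ : I → Γ) (w : I → I → QQ Γ) (hw : ∀ i, del γ (w i) = del γ (bas Γ i)) :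
    Th γ :=
  ⟨Fintype.linearCombination (QQ Γ) w, fun x => by
    have : (del γ).comp (Fintype.linearCombination (QQ Γ) w) = del γ :=
      lin_ext fun i => by
        rw [← hw i]
        simp [bas]
    exact LinearMap.congr_fun this x⟩

@[simp] theorem mkTh_bas (γ : I → Γ) (w : I → I → QQ Γ)
    (hw : ∀ i, del γ (w i) = del γ (bas Γ i)) (i : I) : (mkTh γ w hw).1 (bas Γ i) = w i := by
  simp [mkTh, bas]

theorem mkTh_apply (γ : I → Γ) (w : I → I → QQ Γ)
    (hw : ∀ i, del γ (w i) = del γ (bas Γ i)) (x : I → QQ Γ) :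
    (mkTh γ w hw).1 x = ∑ i, x i • w i := by
  simp [mkTh, Fintype.linearCombination_apply]

theorem th_ext {γ : I → Γ} {θ θ' : Th γ} (h : ∀ i, θ.1 (bas Γ i) = θ'.1 (bas Γ i)) : θ = θ' :=
  Subtype.ext (lin_ext h)

omit [DecidableEq I] in
theorem th_mul {γ : I → Γ} (θ θ' : Th γ) (x : I → QQ Γ) : (θ * θ').1 x = θ.1 (θ'.1 x) := rfl

omit [DecidableEq I] in
theorem th_one {γ : I → Γ} (x : I → QQ Γ) : (1 : Th γ).1 x = x := rfl

omit [DecidableEq I] in
theorem th_del {γ : I → Γ} (θ : Th γ) (x : I → QQ Γ) : del γ (θ.1 x) = del γ x := θ.2 x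

open Classical in
/-- the generators that are mapped to `1` -/
noncomputable def nw (γ : I → Γ) : Finset I := Finset.univ.filter fun i => γ i = 1

omit [DecidableEq I] in
theorem mem_nw {γ : I → Γ} {i : I} : i ∈ nw γ ↔ γ i = 1 := by simp [nw]

theorem del_bas_nw {γ : I → Γ} {i : I} (h : i ∈ nw γ) : del γ (bas Γ i) = 0 := by
  rw [del_bas, mem_nw.1 h, map_one, sub_self]

/-- kill the basis vectors in `A` (those among `nw γ`) -/
noncomputable def kil (γ : I → Γ) (A : Finset I) : Th γ :=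
  mkTh γ (fun i => if i ∈ A ∧ i ∈ nw γ then 0 else bas Γ i) fun i => by
    split_ifs with h
    · rw [map_zero, del_bas_nw h.2]
    · rfl

theorem kil_bas (γ : I → Γ) (A : Finset I) (i : I) :
    (kil γ A).1 (bas Γ i) = if i ∈ A ∧ i ∈ nw γ then 0 else bas Γ i := mkTh_bas _ _ _ _

theorem kil_bas_mem {γ : I → Γ} {A : Finset I} {i : I} (h : i ∈ A) (h' : i ∈ nw γ) :
    (kil γ A).1 (bas Γ i) = 0 := by rw [kil_bas, if_pos ⟨h, h'⟩]

theorem kil_bas_not {γ : I → Γ} {A : Finset I} {i : I} (h : i ∉ A) :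
    (kil γ A).1 (bas Γ i) = bas Γ i := by rw [kil_bas, if_neg fun h' => h h'.1]

theorem kil_mul (γ : I → Γ) (A B : Finset I) : kil γ A * kil γ B = kil γ (A ∪ B) := by
  refine th_ext fun i => ?_
  rw [th_mul, kil_bas γ B, kil_bas γ (A ∪ B)]
  by_cases h1 : i ∈ nw γ
  · by_cases h2 : i ∈ B
    · simp [h1, h2]
    · by_cases h3 : i ∈ A <;> simp [h1, h2, h3, kil_bas]
  · simp [h1, kil_bas]

theorem kil_empty (γ : I → Γ) : kil γ ∅ = 1 := th_ext fun i => by
  rw [kil_bas_not (Finset.notMem_empty i), th_one]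

theorem kil_apply {γ : I → Γ} {A : Finset I} (hA : A ⊆ nw γ) (x : I → QQ Γ) :
    (kil γ A).1 x = x - ∑ i ∈ A, x i • bas Γ i := by
  funext k
  have : ∀ i, (x i • (if i ∈ A ∧ i ∈ nw γ then 0 else bas Γ i)) k =
      if i = k then (if k ∈ A then 0 else x k) else 0 := by
    intro i
    by_cases h : i = k
    · subst h
      by_cases h2 : i ∈ A
      · simp [h2, hA h2]
      · simp [h2, bas]
    · split_ifs <;> simp [bas, Ne.symm h]
  rw [kil, mkTh_apply, Finset.sum_apply, Finset.sum_congr rfl fun i _ => this i]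
  by_cases h : k ∈ A <;> simp [h, bas, Finset.sum_apply, Pi.single_apply]

variable {γ : I → Γ} {X : Type} [AddCommGroup X]

/-- the product of the `1 - kil {i}` over `i ∈ E` -/
noncomputable def pj (ρ : Representation ℤ (Th γ) X) (E : Finset I) : Module.End ℤ X :=
  ∑ S ∈ E.powerset, (-1 : ℤ) ^ S.card • ρ (kil γ S)

theorem pj_empty (ρ : Representation ℤ (Th γ) X) : pj ρ ∅ = 1 := by
  simp [pj, kil_empty]

theorem pj_insert (ρ : Representation ℤ (Th γ) X) {E : Finset I} {i : I} (h : i ∉ E) :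
    pj ρ (insert i E) = (1 - ρ (kil γ {i})) * pj ρ E := by
  rw [pj, Finset.sum_powerset_insert h, sub_mul, one_mul, sub_eq_add_neg]
  congr 1
  rw [pj, Finset.mul_sum, ← Finset.sum_neg_distrib]
  refine Finset.sum_congr rfl fun S hS => ?_
  have : i ∉ S := fun h' => h (Finset.mem_powerset.1 hS h')
  rw [Finset.card_insert_of_notMem this, mul_smul_comm, ← map_mul, kil_mul, pow_succ, mul_neg,
    mul_one, neg_smul]
  rfl

theorem kil_pj (ρ : Representation ℤ (Th γ) X) (A E : Finset I) :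
    ρ (kil γ A) * pj ρ E = pj ρ E * ρ (kil γ A) := by
  rw [pj, Finset.mul_sum, Finset.sum_mul]
  refine Finset.sum_congr rfl fun S _ => ?_
  rw [mul_smul_comm, smul_mul_assoc, ← map_mul, ← map_mul, kil_mul, kil_mul, Finset.union_comm]

theorem pj_insert' (ρ : Representation ℤ (Th γ) X) {E : Finset I} {i : I} (h : i ∉ E) :
    pj ρ (insert i E) = pj ρ E * (1 - ρ (kil γ {i})) := by
  rw [pj_insert ρ h, sub_mul, mul_sub, kil_pj, one_mul, mul_one]

/-- `pj ρ E` kills the vectors fixed by some `kil {i}`, `i ∈ E` -/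
theorem pj_of_fix (ρ : Representation ℤ (Th γ) X) {E : Finset I} {i : I} (h : i ∈ E) {x : X}
    (hx : ρ (kil γ {i}) x = x) : pj ρ E x = 0 := by
  rw [← Finset.insert_erase h, pj_insert' ρ (Finset.notMem_erase i E)]
  simp [hx]

theorem kil_pj_apply (ρ : Representation ℤ (Th γ) X) {E : Finset I} {i : I} (h : i ∈ E) (x : X) :
    ρ (kil γ {i}) (pj ρ E x) = 0 := by
  rw [← Finset.insert_erase h, pj_insert ρ (Finset.notMem_erase i E)]
  have : ρ (kil γ {i}) * (1 - ρ (kil γ {i})) = 0 := by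
    rw [mul_sub, ← map_mul, kil_mul, Finset.union_self, mul_one, sub_self]
  rw [← Module.End.mul_apply, ← mul_assoc, this]
  simp

theorem pj_eq_self (ρ : Representation ℤ (Th γ) X) {E : Finset I} {x : X}
    (hx : ∀ i ∈ E, ρ (kil γ {i}) x = 0) : pj ρ E x = x := by
  induction E using Finset.induction_on with
  | empty => simp [pj_empty]
  | insert i E hi ih =>
    rw [pj_insert ρ hi, Module.End.mul_apply, ih fun k hk => hx k (Finset.mem_insert_of_mem hk)]
    simp [hx i (Finset.mem_insert_self _ _)]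

theorem pj_union (ρ : Representation ℤ (Th γ) X) {E F : Finset I} (h : Disjoint E F) :
    pj ρ (E ∪ F) = pj ρ E * pj ρ F := by
  induction E using Finset.induction_on with
  | empty => simp [pj_empty]
  | insert i E hi ih =>
    rw [Finset.disjoint_insert_left] at h
    rw [Finset.insert_union, pj_insert ρ (by simp [hi, h.1]), ih h.2, pj_insert ρ hi, mul_assoc]

/-- polynomial degree below `d` -/
def Deg (ρ : Representation ℤ (Th γ) X) (d : ℕ) : Prop :=
  ∀ E : Finset I, E ⊆ nw γ → E.card = d → pj ρ E = 0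

omit [DecidableEq I] in
/-- invariant subgroup -/
def InvR (ρ : Representation ℤ (Th γ) X) (U : Submodule ℤ X) : Prop := ∀ θ, ∀ x ∈ U, ρ θ x ∈ U

omit [DecidableEq I] in
/-- the ascending chain condition for invariant subgroups -/
def Noeth (ρ : Representation ℤ (Th γ) X) : Prop := ∀ c : ℕ → Submodule ℤ X, Monotone c →
  (∀ n, InvR ρ (c n)) → ∃ n, ∀ k, n ≤ k → c k = c n

theorem InvR.pj {ρ : Representation ℤ (Th γ) X} {U : Submodule ℤ X} (hU : InvR ρ U) (E : Finset I)
    {x : X} (hx : x ∈ U) : pj ρ E x ∈ U := by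
  rw [HausA.pj, LinearMap.sum_apply]
  exact U.sum_mem fun S _ => U.smul_mem _ (hU _ _ hx)

/-- the largest invariant subgroup of degree below `d` -/
def SS (ρ : Representation ℤ (Th γ) X) (d : ℕ) : Submodule ℤ X where
  carrier := {x | ∀ E : Finset I, E ⊆ nw γ → E.card = d → ∀ θ, pj ρ E (ρ θ x) = 0}
  add_mem' := fun ha hb E hE hc θ => by rw [map_add, map_add, ha E hE hc, hb E hE hc, add_zero]
  zero_mem' := fun E _ _ θ => by simp
  smul_mem' := fun c x hx E hE hc θ => by rw [map_smul, map_smul, hx E hE hc, smul_zero]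

theorem mem_SS {ρ : Representation ℤ (Th γ) X} {d : ℕ} {x : X} : x ∈ SS ρ d ↔
    ∀ E : Finset I, E ⊆ nw γ → E.card = d → ∀ θ, pj ρ E (ρ θ x) = 0 := Iff.rfl

theorem invR_SS (ρ : Representation ℤ (Th γ) X) (d : ℕ) : InvR ρ (SS ρ d) :=
  fun θ x hx E hE hc θ' => by
    rw [← Module.End.mul_apply (ρ θ'), ← map_mul]
    exact hx E hE hc _

end Basic

/-- a non-empty family of subgroups with the ascending chain condition has a maximal member -/
theorem exists_max {W : Type} [AddCommGroup W] (P : Submodule ℤ W → Prop)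
    (acc : ∀ c : ℕ → Submodule ℤ W, Monotone c → (∀ n, P (c n)) → ∃ n, ∀ k, n ≤ k → c k = c n)
    (F : Set (Submodule ℤ W)) (hF : ∀ U ∈ F, P U) (hne : F.Nonempty) :
    ∃ U ∈ F, ∀ V ∈ F, U ≤ V → V = U := by
  by_contra hcon
  push Not at hcon
  choose! f hf using hcon
  obtain ⟨U₀, hU₀⟩ := hne
  have hmem : ∀ n, f^[n] U₀ ∈ F := by
    intro n
    induction n with
    | zero => exact hU₀
    | succ n ih => rw [Function.iterate_succ_apply']; exact (hf _ ih).1
  obtain ⟨n, hn⟩ := acc (fun n => f^[n] U₀) (monotone_nat_of_le_succ fun n => by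
    rw [Function.iterate_succ_apply']; exact (hf _ (hmem n)).2.1) fun n => hF _ (hmem n)
  have := hn (n + 1) (Nat.le_succ n)
  rw [Function.iterate_succ_apply'] at this
  exact (hf _ (hmem n)).2.2 this

/-- stable under `τ` and `s` -/
def Stab {G H M : Type} [Group G] [AddCommGroup M] (τ : Representation ℤ G M)
    (s : H → Module.End ℤ M) (U : Submodule ℤ M) : Prop :=
  (∀ g, ∀ x ∈ U, τ g x ∈ U) ∧ ∀ σ, ∀ x ∈ U, s σ x ∈ U

/-- commutes with `τ` and `s` -/
def Com {G H M : Type} [Group G] [AddCommGroup M] (τ : Representation ℤ G M)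
    (s : H → Module.End ℤ M) (c : Module.End ℤ M) : Prop :=
  (∀ g, c * τ g = τ g * c) ∧ ∀ σ, c * s σ = s σ * c

/-- the span of the orbits of the elements of `T` -/
def orb {G M : Type} [Group G] [AddCommGroup M] (τ : Representation ℤ G M) (T : Finset M) :
    Submodule ℤ M := Submodule.span ℤ {x | ∃ g, ∃ t ∈ T, x = τ g t}

/-- part FIN -/
def RFin : Prop := ∀ (Γ : Type) [Group Γ], Group.FG Γ → VN Γ → ∀ (d : ℕ) (M : Type)
  [AddCommGroup M] (τ : Representation ℤ (Fin d → Γ) M)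
  (s : Equiv.Perm (Fin d) → Module.End ℤ M), (∀ σ g, s σ * τ (g ∘ σ) = τ g * s σ) →
  (∃ T : Finset M, orb τ T = ⊤) → (∀ c, Com τ s c → IsIntegral ℤ c) →
  (∃ n : ℕ, 0 < n ∧ ∀ x : M, n • x = 0) → Finite M

/-- part NIL -/
def RNil : Prop := ∀ (Γ : Type) [Group Γ], Group.FG Γ → VN Γ → ∀ (d : ℕ) (M : Type)
  [AddCommGroup M] (τ : Representation ℤ (Fin d → Γ) M)
  (s : Equiv.Perm (Fin d) → Module.End ℤ M),
  (∀ c : ℕ → Submodule ℤ M, Monotone c → (∀ n, Stab τ s (c n)) → ∃ n, ∀ k, n ≤ k → c k = c n) →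
  ∀ M' : Submodule ℤ M, Stab τ s M' → M' ≠ ⊥ → (∀ U, Stab τ s U → U ≠ ⊥ → M' ≤ U) →
  (∃ T : Finset M, orb τ T = M') →
  (∀ c, Com τ s c → IsIntegral ℤ c) ∧ ∃ n : ℕ, 0 < n ∧ ∀ x : M, n • x = 0

/-- part QUO -/
def RQuo : Prop := ∀ (Γ I : Type) [Group Γ] [Fintype I] [DecidableEq I] (γ : I → Γ) (X : Type)
  [AddCommGroup X] (ρ : Representation ℤ (Th γ) X) (d : ℕ), 2 * d ≤ (nw γ).card →
  Deg ρ (d + 1) → Finite (SS ρ d) →
  (∀ E : Finset I, E ⊆ nw γ → E.card = d → Finite (LinearMap.range (pj ρ E))) → Finite X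

/-- part MAIN -/
def RMain : Prop := ∀ (Γ I : Type) [Group Γ] [Fintype I] [DecidableEq I] (γ : I → Γ), VN Γ →
  Subgroup.closure (Set.range γ) = ⊤ → ∀ (d : ℕ), 2 * d ≤ (nw γ).card + 1 → ∀ (X : Type)
  [AddCommGroup X] (ρ : Representation ℤ (Th γ) X), Noeth ρ → Deg ρ d →
  ∀ x₀ : X, (∀ U, InvR ρ U → U ≠ ⊥ → x₀ ∈ U) → x₀ ≠ 0 → Finite X

end Pool.Agent.MP_5c28a4_al.H89S.HausA
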