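import Pool.Agent.MP_5c28a4_al.H62S.Base

/-!
The top component of a module of polynomial degree at most `d`.
-/

set_option autoImplicit false

namespace Pool.Agent.MP_5c28a4_al.H89S.HausA

variable {Γ I : Type} [Group Γ] [Fintype I] [DecidableEq I]

/-- `d` generators mapped to `1` and a spare one -/
structure Fr (γ : I → Γ) (d : ℕ) where
  e : Fin d → I
  inj : Function.Injective e
  mem : ∀ l, e l ∈ nw γ
  j : I
  jmem : j ∈ nw γ
  jne : ∀ l, e l ≠ j

variable {γ : I → Γ} {X : Type} [AddCommGroup X] {d : ℕ}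

/-- the set of the chosen generators -/
def Fr.E (F : Fr γ d) : Finset I := Finset.univ.image F.e

theorem Fr.mem_E (F : Fr γ d) {i : I} : i ∈ F.E ↔ ∃ l, F.e l = i := by simp [Fr.E]

theorem Fr.E_sub (F : Fr γ d) : F.E ⊆ nw γ := fun i hi => by
  obtain ⟨l, rfl⟩ := F.mem_E.1 hi
  exact F.mem l

theorem Fr.card_E (F : Fr γ d) : F.E.card = d := by
  rw [Fr.E, Finset.card_image_of_injective _ F.inj, Finset.card_univ, Fintype.card_fin]

omit [DecidableEq I] in
theorem res_coe (θ : Th γ) (v : VV γ) : (res θ v : I → QQ Γ) = θ.1 v := rfl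

omit [DecidableEq I] in
theorem del_VV (v : VV γ) : del γ (v : I → QQ Γ) = 0 := v.2

/-- substitute the chosen generators -/
noncomputable def put (F : Fr γ d) (w : Fin d → VV γ) : Th γ :=
  mkTh γ (Function.extend F.e (fun l => (w l : I → QQ Γ)) (bas Γ)) fun i => by
    by_cases h : ∃ l, F.e l = i
    · obtain ⟨l, rfl⟩ := h
      rw [F.inj.extend_apply, del_VV, del_bas_nw (F.mem l)]
    · rw [Function.extend_apply' _ _ _ h]

theorem put_e (F : Fr γ d) (w : Fin d → VV γ) (l : Fin d) :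
    (put F w).1 (bas Γ (F.e l)) = w l := by
  rw [put, mkTh_bas, F.inj.extend_apply]

theorem put_not (F : Fr γ d) (w : Fin d → VV γ) {i : I} (h : ¬ ∃ l, F.e l = i) :
    (put F w).1 (bas Γ i) = bas Γ i := by
  rw [put, mkTh_bas, Function.extend_apply' _ _ _ h]

theorem put_mul (F : Fr γ d) (w w' : Fin d → VV γ) :
    put F w * put F w' = put F fun l => res (put F w) (w' l) := by
  refine th_ext fun i => ?_
  by_cases h : ∃ l, F.e l = i
  · obtain ⟨l, rfl⟩ := h
    rw [th_mul, put_e, put_e, res_coe]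
  · rw [th_mul, put_not _ _ h, put_not _ _ h, put_not _ _ h]

/-- the chosen generators as elements of the relation module -/
noncomputable def bv (F : Fr γ d) (l : Fin d) : VV γ := ⟨bas Γ (F.e l), del_bas_nw (F.mem l)⟩

theorem bv_coe (F : Fr γ d) (l : Fin d) : (bv F l : I → QQ Γ) = bas Γ (F.e l) := rfl

theorem res_put_bv (F : Fr γ d) (w : Fin d → VV γ) (l : Fin d) : res (put F w) (bv F l) = w l :=
  Subtype.ext (put_e F w l)

theorem put_bv (F : Fr γ d) : put F (bv F) = 1 := by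
  refine th_ext fun i => ?_
  by_cases h : ∃ l, F.e l = i
  · obtain ⟨l, rfl⟩ := h
    rw [put_e, th_one, bv_coe]
  · rw [put_not _ _ h, th_one]

/-- change the value at one basis vector -/
noncomputable def upd (θ : Th γ) (c : I) (v : I → QQ Γ) (hv : del γ v = del γ (bas Γ c)) : Th γ :=
  mkTh γ (Function.update (fun i => θ.1 (bas Γ i)) c v) fun i => by
    by_cases h : i = c
    · subst h
      rw [Function.update_self, hv]
    · rw [Function.update_of_ne h, th_del]

theorem upd_self (θ : Th γ) (c : I) (v : I → QQ Γ) (hv : del γ v = del γ (bas Γ c)) :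
    (upd θ c v hv).1 (bas Γ c) = v := by rw [upd, mkTh_bas, Function.update_self]

theorem upd_ne (θ : Th γ) (c : I) (v : I → QQ Γ) (hv : del γ v = del γ (bas Γ c)) {i : I}
    (h : i ≠ c) : (upd θ c v hv).1 (bas Γ i) = θ.1 (bas Γ i) := by
  rw [upd, mkTh_bas, Function.update_of_ne h]

theorem kil_self {i : I} (h : i ∈ nw γ) : (kil γ {i}).1 (bas Γ i) = 0 :=
  kil_bas_mem (Finset.mem_singleton_self i) h

theorem kil_ne {i k : I} (h : k ≠ i) : (kil γ {i}).1 (bas Γ k) = bas Γ k :=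
  kil_bas_not fun h' => h (Finset.mem_singleton.1 h')

/-- the transvection `c ↦ c + j` -/
noncomputable def tv (F : Fr γ d) (c : I) : Th γ :=
  upd 1 c (bas Γ c + bas Γ F.j) (by rw [map_add, del_bas_nw F.jmem, add_zero])

theorem tv_self (F : Fr γ d) (c : I) : (tv F c).1 (bas Γ c) = bas Γ c + bas Γ F.j :=
  upd_self _ _ _ _

theorem tv_ne (F : Fr γ d) (c : I) {i : I} (h : i ≠ c) : (tv F c).1 (bas Γ i) = bas Γ i :=
  upd_ne _ _ _ _ h

theorem kil_tv (F : Fr γ d) {c i : I} (hi : i ∈ nw γ) (h1 : i ≠ c) (h2 : i ≠ F.j) :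
    kil γ {i} * tv F c = tv F c * kil γ {i} := by
  refine th_ext fun k => ?_
  rw [th_mul, th_mul]
  by_cases hk : k = c
  · subst hk
    rw [tv_self, map_add, kil_ne h1.symm, kil_ne h2.symm, tv_self]
  · by_cases hk' : k = i
    · subst hk'
      rw [tv_ne _ _ hk, kil_self hi, map_zero]
    · rw [tv_ne _ _ hk, kil_ne hk', tv_ne _ _ hk]

theorem kil_j_tv (F : Fr γ d) {c : I} (h : c ≠ F.j) : kil γ {F.j} * tv F c = kil γ {F.j} := by
  refine th_ext fun k => ?_
  rw [th_mul]
  by_cases hk : k = c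
  · subst hk
    rw [tv_self, map_add, kil_self F.jmem, add_zero]
  · rw [tv_ne _ _ hk]

/-- the top component -/
def MM (F : Fr γ d) (ρ : Representation ℤ (Th γ) X) : Submodule ℤ X where
  carrier := {x | ∀ l, ρ (kil γ {F.e l}) x = 0}
  add_mem' := fun ha hb l => by rw [map_add, ha l, hb l, add_zero]
  zero_mem' := fun l => map_zero _
  smul_mem' := fun c x hx l => by rw [map_smul, hx l, smul_zero]

theorem mem_MM {F : Fr γ d} {ρ : Representation ℤ (Th γ) X} {x : X} :
    x ∈ MM F ρ ↔ ∀ l, ρ (kil γ {F.e l}) x = 0 := Iff.rfl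

theorem pj_mem_MM (F : Fr γ d) (ρ : Representation ℤ (Th γ) X) (x : X) :
    pj ρ F.E x ∈ MM F ρ := fun l => kil_pj_apply ρ (F.mem_E.2 ⟨l, rfl⟩) x

theorem pj_MM {F : Fr γ d} {ρ : Representation ℤ (Th γ) X} {x : X} (hx : x ∈ MM F ρ) :
    pj ρ F.E x = x := pj_eq_self ρ fun i hi => by
  obtain ⟨l, rfl⟩ := F.mem_E.1 hi
  exact hx l

omit [DecidableEq I] in
theorem rho_mul (ρ : Representation ℤ (Th γ) X) (θ θ' : Th γ) (x : X) :
    ρ (θ * θ') x = ρ θ (ρ θ' x) := by rw [map_mul, Module.End.mul_apply]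

variable {F : Fr γ d} {ρ : Representation ℤ (Th γ) X}

theorem fix_j (hD : Deg ρ (d + 1)) {x : X} (hx : x ∈ MM F ρ) : ρ (kil γ {F.j}) x = x := by
  have hj : F.j ∉ F.E := fun h => by
    obtain ⟨l, hl⟩ := F.mem_E.1 h
    exact F.jne l hl
  have h0 := hD (insert F.j F.E) (Finset.insert_subset F.jmem F.E_sub)
    (by rw [Finset.card_insert_of_notMem hj, F.card_E])
  rw [pj_insert ρ hj] at h0
  have h1 := LinearMap.congr_fun h0 x
  rw [Module.End.mul_apply, pj_MM hx] at h1
  exact (sub_eq_zero.1 h1).symm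

theorem tv_fix (hD : Deg ρ (d + 1)) {x : X} (hx : x ∈ MM F ρ) {c : I} (hc : ¬ ∃ l, F.e l = c)
    (hj : c ≠ F.j) : ρ (tv F c) x = x := by
  have h1 : ρ (tv F c) x ∈ MM F ρ := fun l => by
    rw [← rho_mul, kil_tv F (F.mem l) (fun h => hc ⟨l, h⟩) (F.jne l), rho_mul, hx l, map_zero]
  rw [← fix_j hD h1, ← rho_mul, kil_j_tv F hj, fix_j hD hx]

theorem dep_j (hD : Deg ρ (d + 1)) {x : X} (hx : x ∈ MM F ρ) {θ θ' : Th γ}
    (h : ∀ i, i ≠ F.j → θ.1 (bas Γ i) = θ'.1 (bas Γ i)) : ρ θ x = ρ θ' x := by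
  have : θ * kil γ {F.j} = θ' * kil γ {F.j} := th_ext fun k => by
    rw [th_mul, th_mul]
    by_cases hk : k = F.j
    · rw [hk, kil_self F.jmem, map_zero, map_zero]
    · rw [kil_ne hk, h k hk]
  rw [← fix_j hD hx, ← rho_mul, ← rho_mul, this]

theorem dep_one (hD : Deg ρ (d + 1)) {x : X} (hx : x ∈ MM F ρ) {θ θ' : Th γ} {c : I}
    (hc : ¬ ∃ l, F.e l = c) (h : ∀ i, i ≠ c → θ.1 (bas Γ i) = θ'.1 (bas Γ i)) :
    ρ θ x = ρ θ' x := by
  by_cases hj : c = F.j
  · subst hj
    exact dep_j hD hx h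
  have hv : del γ (θ'.1 (bas Γ c) - θ.1 (bas Γ c)) = del γ (bas Γ F.j) := by
    rw [map_sub, th_del, th_del, sub_self, del_bas_nw F.jmem]
  have h1 : ρ θ x = ρ (upd θ F.j _ hv) x := dep_j hD hx fun i hi => (upd_ne _ _ _ _ hi).symm
  have h2 : ρ (upd θ F.j _ hv * tv F c) x = ρ θ' x := dep_j hD hx fun i hi => by
    rw [th_mul]
    by_cases hic : i = c
    · subst hic
      rw [tv_self, map_add, upd_self, upd_ne _ _ _ _ hi, add_sub_cancel]
    · rw [tv_ne _ _ hic, upd_ne _ _ _ _ hi, h i hic]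
  rw [h1, ← h2, rho_mul, tv_fix hD hx hc hj]

/-- the value depends only on the images of the chosen generators -/
theorem dep (hD : Deg ρ (d + 1)) {x : X} (hx : x ∈ MM F ρ) {θ θ' : Th γ}
    (h : ∀ l, θ.1 (bas Γ (F.e l)) = θ'.1 (bas Γ (F.e l))) : ρ θ x = ρ θ' x := by
  have key : ∀ C : Finset I, (∀ c ∈ C, ¬ ∃ l, F.e l = c) → ∀ θ θ' : Th γ,
      (∀ i, i ∉ C → θ.1 (bas Γ i) = θ'.1 (bas Γ i)) → ρ θ x = ρ θ' x := by
    intro C
    induction C using Finset.induction_on with
    | empty =>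
      intro _ θ θ' h
      rw [th_ext fun i => h i (Finset.notMem_empty i)]
    | insert c C hc ih =>
      intro hC θ θ' h
      have h1 : ρ θ x = ρ (upd θ c _ (th_del θ' (bas Γ c))) x :=
        dep_one hD hx (hC c (Finset.mem_insert_self _ _)) fun i hi => (upd_ne _ _ _ _ hi).symm
      rw [h1]
      refine ih (fun c' hc' => hC c' (Finset.mem_insert_of_mem hc')) _ _ fun i hi => ?_
      by_cases hic : i = c
      · subst hic
        exact upd_self _ _ _ _
      · rw [upd_ne _ _ _ _ hic]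
        exact h i (by simp [hi, hic])
  refine key (Finset.univ \ F.E) (fun c hc h' => ?_) θ θ' fun i hi => ?_
  · exact (Finset.mem_sdiff.1 hc).2 (F.mem_E.2 h')
  · have : i ∈ F.E := by simpa using hi
    obtain ⟨l, rfl⟩ := F.mem_E.1 this
    exact h l

theorem tv_split (hD : Deg ρ (d + 1)) {x : X} (hx : x ∈ MM F ρ) (l : Fin d) :
    ρ (tv F (F.e l)) x = ρ (kil γ {F.e l}) (ρ (tv F (F.e l)) x) + x := by
  have hj : F.j ∉ F.E := fun h => by
    obtain ⟨l, hl⟩ := F.mem_E.1 h
    exact F.jne l hl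
  have hl : F.e l ∈ F.E := F.mem_E.2 ⟨l, rfl⟩
  have h0 := hD (insert F.j F.E) (Finset.insert_subset F.jmem F.E_sub)
    (by rw [Finset.card_insert_of_notMem hj, F.card_E])
  rw [pj_insert ρ hj, ← Finset.insert_erase hl, pj_insert ρ (Finset.notMem_erase _ _)] at h0
  have h1 := LinearMap.congr_fun h0 (ρ (tv F (F.e l)) x)
  have h2 : pj ρ (F.E.erase (F.e l)) (ρ (tv F (F.e l)) x) = ρ (tv F (F.e l)) x := by
    refine pj_eq_self ρ fun i hi => ?_
    obtain ⟨h3, h4⟩ := Finset.mem_erase.1 hi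
    obtain ⟨l', rfl⟩ := F.mem_E.1 h4
    rw [← rho_mul, kil_tv F (F.mem l') h3 (F.jne l'), rho_mul, hx l', map_zero]
  have h3 : ρ (kil γ {F.j}) (ρ (tv F (F.e l)) x) = x := by
    rw [← rho_mul, kil_j_tv F (F.jne l), fix_j hD hx]
  have h4 : ρ (kil γ {F.j}) (ρ (kil γ {F.e l}) (ρ (tv F (F.e l)) x)) = 0 := by
    rw [← rho_mul, kil_mul, Finset.union_comm, ← kil_mul, rho_mul, h3, hx l]
  rw [Module.End.mul_apply, Module.End.mul_apply, h2] at h1
  simp only [LinearMap.sub_apply, Module.End.one_apply, map_sub, h3, h4, LinearMap.zero_apply,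
    sub_zero] at h1
  rw [sub_sub, sub_eq_zero, add_comm] at h1
  exact h1

theorem put_add (hD : Deg ρ (d + 1)) {x : X} (hx : x ∈ MM F ρ) (w : Fin d → VV γ) (l : Fin d)
    (a b : VV γ) : ρ (put F (Function.update w l (a + b))) x =
      ρ (put F (Function.update w l a)) x + ρ (put F (Function.update w l b)) x := by
  have hv : del γ (b : I → QQ Γ) = del γ (bas Γ F.j) := by rw [del_VV, del_bas_nw F.jmem]
  set θ := upd (put F (Function.update w l a)) F.j _ hv with hθ
  have hθe : ∀ l', θ.1 (bas Γ (F.e l')) = (Function.update w l a l' : VV γ) := fun l' => by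
    rw [hθ, upd_ne _ _ _ _ (F.jne l'), put_e]
  have hθj : θ.1 (bas Γ F.j) = b := upd_self _ _ _ _
  have h1 : ρ (put F (Function.update w l (a + b))) x = ρ (θ * tv F (F.e l)) x :=
    dep hD hx fun l' => by
      rw [put_e, th_mul]
      by_cases h : l' = l
      · subst h
        rw [tv_self, map_add, hθe, hθj, Function.update_self, Function.update_self]
        rfl
      · rw [tv_ne _ _ (F.inj.ne h), hθe, Function.update_of_ne h, Function.update_of_ne h]
  have h2 : ρ (put F (Function.update w l a)) x = ρ θ x := dep hD hx fun l' => by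
    rw [put_e, hθe]
  have h3 : ρ (put F (Function.update w l b)) x = ρ (θ * (kil γ {F.e l} * tv F (F.e l))) x :=
    dep hD hx fun l' => by
      rw [put_e, th_mul, th_mul]
      by_cases h : l' = l
      · subst h
        rw [tv_self, map_add, kil_self (F.mem l'), zero_add, kil_ne (F.jne l').symm, hθj,
          Function.update_self]
      · rw [tv_ne _ _ (F.inj.ne h), kil_ne (F.inj.ne h), hθe, Function.update_of_ne h,
          Function.update_of_ne h]
  rw [h1, h2, h3, rho_mul, tv_split hD hx l, map_add, rho_mul, rho_mul, add_comm]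

/-- the multilinear map defined by an element of the top component -/
noncomputable def bet (hD : Deg ρ (d + 1)) (μ : MM F ρ) :
    MultilinearMap ℤ (fun _ : Fin d => VV γ) X :=
  MultilinearMap.mk' (fun w => ρ (put F w) μ) (fun w l a b => put_add hD μ.2 w l a b)
    fun w l c a => by
      let f : VV γ →+ X := AddMonoidHom.mk' (fun a => ρ (put F (Function.update w l a)) μ)
        fun a b => put_add hD μ.2 w l a b
      exact f.map_zsmul c a

theorem bet_apply (hD : Deg ρ (d + 1)) (μ : MM F ρ) (w : Fin d → VV γ) :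
    bet hD μ w = ρ (put F w) μ := rfl

theorem rho_bet (hD : Deg ρ (d + 1)) (μ : MM F ρ) (θ : Th γ) (w : Fin d → VV γ) :
    ρ θ (bet hD μ w) = bet hD μ fun l => res θ (w l) := by
  rw [bet_apply, bet_apply, ← rho_mul]
  exact dep hD μ.2 fun l => by rw [th_mul, put_e, put_e, res_coe]

end Pool.Agent.MP_5c28a4_al.H89S.HausA
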