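import Pool.Agent.MP_5c28a4_al.H62S.Main
import Pool.Agent.MP_5c28a4_al.H51S.RFin
import Pool.Agent.MP_5c28a4_al.H15S.RNil
import Pool.Agent.MP_5c28a4_al.H23S.RQuo
import Pool.Agent.MP_5c28a4_al.H76S.RRet

/-!
Assembly of `SHaus`.
-/

set_option autoImplicit false

namespace Pool.Agent.MP_5c28a4_al.H89S

theorem haus : BVn → SN → SHall → SHaus := fun hb hsn hh =>
  HausA.rRet hsn (HausA.rMain hsn (HausA.rFin hb) (HausA.rNil hh) HausA.rQuo)

end Pool.Agent.MP_5c28a4_al.H89S
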