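import Pool.Agent.MP_5c28a4_al.H62S.Top

/-!
The main induction for `SHaus`.
-/

set_option autoImplicit false

namespace Pool.Agent.MP_5c28a4_al.H89S.HausA

open Polynomial

variable {Γ I : Type} [Group Γ] [Fintype I] [DecidableEq I]
  {γ : I → Γ} {X : Type} [AddCommGroup X] {d : ℕ}

omit [DecidableEq I] in
theorem act_tprod (θ : Th γ) (w : Fin d → VV γ) :
    act θ d (PiTensorProduct.tprod ℤ w) = PiTensorProduct.tprod ℤ fun l => res θ (w l) := by
  rw [act, PiTensorProduct.map_tprod]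
  rfl

omit [DecidableEq I] in
theorem act_mul (θ θ' : Th γ) (t : TT γ d) : act (θ * θ') d t = act θ d (act θ' d t) := by
  have : act (θ * θ') d = (act θ d).comp (act θ' d) := by
    ext w
    simp only [LinearMap.compMultilinearMap_apply, LinearMap.comp_apply, act_tprod]
    rfl
  exact LinearMap.congr_fun this t

omit [DecidableEq I] in
theorem act_one (t : TT γ d) : act (1 : Th γ) d t = t := by
  have : act (1 : Th γ) d = LinearMap.id := by
    ext w
    simp only [LinearMap.compMultilinearMap_apply, LinearMap.id_apply, act_tprod]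
    rfl
  exact LinearMap.congr_fun this t

omit [DecidableEq I] in
/-- the action on a finite sum -/
noncomputable def actY (J : Type) (θ : Th γ) (d : ℕ) : (J → TT γ d) →ₗ[ℤ] J → TT γ d :=
  LinearMap.pi fun j => (act θ d).comp (LinearMap.proj j)

omit [DecidableEq I] in
theorem actY_apply {J : Type} (θ : Th γ) (y : J → TT γ d) :
    actY J θ d y = fun j => act θ d (y j) := rfl

omit [DecidableEq I] in
theorem inv_fg {J : Type}
    (acc : ∀ c : ℕ → Submodule ℤ (J → TT γ d), Monotone c → (∀ n, Inv (c n)) →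
      ∃ n, ∀ k, n ≤ k → c k = c n) (K : Submodule ℤ (J → TT γ d)) :
    ∃ T : Finset (J → TT γ d), (∀ t ∈ T, t ∈ K) ∧
      K ≤ Submodule.span ℤ {y | ∃ θ, ∃ t ∈ T, y = actY J θ d t} := by
  classical
  obtain ⟨V, ⟨T, hT, rfl⟩, hmax⟩ := exists_max Inv acc
    {V | ∃ T : Finset (J → TT γ d), (∀ t ∈ T, t ∈ K) ∧
      V = Submodule.span ℤ {y | ∃ θ, ∃ t ∈ T, y = actY J θ d t}}
    (by
      rintro _ ⟨T, _, rfl⟩ θ x hx
      have : Submodule.span ℤ {y | ∃ θ, ∃ t ∈ T, y = actY J θ d t} ≤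
          (Submodule.span ℤ {y | ∃ θ, ∃ t ∈ T, y = actY J θ d t}).comap (actY J θ d) :=
        Submodule.span_le.2 (by
          rintro _ ⟨θ', t, ht, rfl⟩
          exact Submodule.subset_span ⟨θ * θ', t, ht, funext fun j => (act_mul _ _ _).symm⟩)
      exact this hx) ⟨_, ∅, by simp, rfl⟩
  refine ⟨T, hT, fun x hx => ?_⟩
  have h1 := hmax _ ⟨insert x T, fun t ht => by
    rcases Finset.mem_insert.1 ht with rfl | h
    · exact hx
    · exact hT t h, rfl⟩ (Submodule.span_mono (by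
      rintro _ ⟨θ, t, ht, rfl⟩
      exact ⟨θ, t, Finset.mem_insert_of_mem ht, rfl⟩))
  rw [← h1]
  exact Submodule.subset_span ⟨1, x, Finset.mem_insert_self _ _,
    funext fun j => (act_one _).symm⟩

variable {F : Fr γ d} {ρ : Representation ℤ (Th γ) X}

/-- the map from the tensor power -/
noncomputable def bt (hD : Deg ρ (d + 1)) (μ : MM F ρ) : TT γ d →ₗ[ℤ] X :=
  PiTensorProduct.lift (bet hD μ)

theorem rho_bt (hD : Deg ρ (d + 1)) (μ : MM F ρ) (θ : Th γ) (t : TT γ d) :
    ρ θ (bt hD μ t) = bt hD μ (act θ d t) := by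
  have : (ρ θ).comp (bt hD μ) = (bt hD μ).comp (act θ d) := by
    ext w
    simp only [LinearMap.compMultilinearMap_apply, LinearMap.comp_apply, act_tprod, bt,
      PiTensorProduct.lift.tprod, rho_bet]
  exact LinearMap.congr_fun this t

theorem pM_bt_com (hD : Deg ρ (d + 1)) {c : Module.End ℤ (MM F ρ)}
    (hc : Com (tauM F ρ) (sgM F ρ) c) (μ : MM F ρ) (t : TT γ d) :
    pM F ρ (bt hD (c μ) t) = c (pM F ρ (bt hD μ t)) := by
  have : (pM F ρ).comp (bt hD (c μ)) = c.comp ((pM F ρ).comp (bt hD μ)) := by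
    refine PiTensorProduct.ext (MultilinearMap.ext fun w => ?_)
    simp only [LinearMap.compMultilinearMap_apply, LinearMap.comp_apply, bt,
      PiTensorProduct.lift.tprod, pM_bet_com hD hc]
  exact LinearMap.congr_fun this t

theorem bt_sub (hD : Deg ρ (d + 1)) (μ μ' : MM F ρ) (t : TT γ d) :
    bt hD (μ - μ') t = bt hD μ t - bt hD μ' t := by
  have : bt hD (μ - μ') = bt hD μ - bt hD μ' := by
    ext w
    simp only [LinearMap.compMultilinearMap_apply, LinearMap.sub_apply, bt,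
      PiTensorProduct.lift.tprod, bet_apply, Submodule.coe_sub, map_sub]
  exact LinearMap.congr_fun this t

/-- the map from a finite sum of tensor powers -/
noncomputable def bY (hD : Deg ρ (d + 1)) {J : Type} [Fintype J] (μ : J → MM F ρ) :
    (J → TT γ d) →ₗ[ℤ] X := ∑ j, (bt hD (μ j)).comp (LinearMap.proj j)

theorem bY_apply (hD : Deg ρ (d + 1)) {J : Type} [Fintype J] (μ : J → MM F ρ) (y : J → TT γ d) :
    bY hD μ y = ∑ j, bt hD (μ j) (y j) := by
  rw [bY, LinearMap.sum_apply]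
  rfl

theorem rho_bY (hD : Deg ρ (d + 1)) {J : Type} [Fintype J] (μ : J → MM F ρ) (θ : Th γ)
    (y : J → TT γ d) : ρ θ (bY hD μ y) = bY hD μ (actY J θ d y) := by
  rw [bY_apply, bY_apply, map_sum]
  exact Finset.sum_congr rfl fun j _ => rho_bt hD _ θ _

theorem pM_bY_com (hD : Deg ρ (d + 1)) {J : Type} [Fintype J] {c : Module.End ℤ (MM F ρ)}
    (hc : Com (tauM F ρ) (sgM F ρ) c) (μ : J → MM F ρ) (y : J → TT γ d) :
    pM F ρ (bY hD (fun j => c (μ j)) y) = c (pM F ρ (bY hD μ y)) := by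
  rw [bY_apply, bY_apply, map_sum, map_sum, map_sum]
  exact Finset.sum_congr rfl fun j _ => pM_bt_com hD hc _ _

theorem bY_mem_SS (hD : Deg ρ (d + 1)) {J : Type} [Fintype J] {c : Module.End ℤ (MM F ρ)}
    (hc : Com (tauM F ρ) (sgM F ρ) c) (μ : J → MM F ρ) (y : J → TT γ d) :
    bY hD (fun j => c (μ j)) y ∈ SS ρ d ↔ ∀ θ, c (pM F ρ (bY hD μ (actY J θ d y))) = 0 := by
  constructor
  · intro h θ
    rw [← pM_bY_com hD hc, ← rho_bY]
    exact Subtype.ext (h F.E F.E_sub F.card_E θ)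
  · intro h
    refine mem_SS_of (F := F) fun θ => ?_
    rw [← pM_coe, rho_bY, pM_bY_com hD hc, h θ]
    rfl

theorem Com.aeval {G H M : Type} [Group G] [AddCommGroup M] {τ : Representation ℤ G M}
    {s : H → Module.End ℤ M} {c : Module.End ℤ M} (hc : Com τ s c) (h : ℤ[X]) :
    Com τ s (aeval c h) := by
  have key : ∀ a : Module.End ℤ M, c * a = a * c → Polynomial.aeval c h * a =
      a * Polynomial.aeval c h := fun a ha =>
    (Algebra.commute_of_mem_adjoin_singleton_of_commute (aeval_mem_adjoin_singleton ℤ c)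
      (Commute.symm ha)).symm
  exact ⟨fun g => key _ (hc.1 g), fun σ => key _ (hc.2 σ)⟩

theorem nil_case (hD : Deg ρ (d + 1)) (T : Finset (MM F ρ)) (hT : orb (tauM F ρ) T = ⊤)
    (acc : ∀ c : ℕ → Submodule ℤ (T → TT γ d), Monotone c → (∀ n, Inv (c n)) →
      ∃ n, ∀ k, n ≤ k → c k = c n) (hS : Finite (SS ρ d)) {x₀ : X}
    (hx : ∀ U, InvR ρ U → U ≠ ⊥ → x₀ ∈ U) (hx0 : x₀ ≠ 0) (hxS : x₀ ∈ SS ρ d)
    {c : Module.End ℤ (MM F ρ)} (hc : Com (tauM F ρ) (sgM F ρ) c) :
    ∃ h : ℤ[X], h.Monic ∧ 0 < h.eval 2 ∧ aeval c h = 0 := by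
  classical
  let μ : T → MM F ρ := fun t => t.1
  let K : ℤ[X] → Submodule ℤ (T → TT γ d) := fun h =>
    (SS ρ d).comap (bY hD fun j => aeval c h (μ j))
  have hKi : ∀ h, Inv (K h) := fun h θ y hy => by
    change bY hD _ (actY T θ d y) ∈ SS ρ d
    rw [← rho_bY]
    exact invR_SS ρ d θ _ hy
  have hKm : ∀ h h₀, K h₀ ≤ K (h * h₀) := fun h h₀ y hy => by
    refine (bY_mem_SS hD (hc.aeval _) μ y).2 fun θ => ?_
    rw [map_mul, Module.End.mul_apply, (bY_mem_SS hD (hc.aeval _) μ y).1 hy θ, map_zero]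
  obtain ⟨_, ⟨h₀, ⟨hm, h2⟩, rfl⟩, hmax⟩ := exists_max Inv acc
    (K '' {h | h.Monic ∧ 0 < h.eval 2}) (by rintro _ ⟨h, _, rfl⟩; exact hKi h)
    ⟨_, 1, ⟨monic_one, by simp⟩, rfl⟩
  obtain ⟨Z, hZ, hZK⟩ := inv_fg acc (K h₀)
  let f : ℕ → Z → SS ρ d := fun n y =>
    ⟨bY hD (fun j => aeval c (Polynomial.X ^ n * h₀) (μ j)) y, hKm _ _ (hZ _ y.2)⟩
  have hij : ∃ i j, i < j ∧ f i = f j := by
    obtain ⟨i, j, hne, hf⟩ := Finite.exists_ne_map_eq_of_infinite f
    rcases lt_or_gt_of_ne hne with h | h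
    · exact ⟨i, j, h, hf⟩
    · exact ⟨j, i, h, hf.symm⟩
  obtain ⟨i, j, hlt, hf⟩ := hij
  have hmon : (Polynomial.X ^ j - Polynomial.X ^ i : ℤ[X]).Monic :=
    (monic_X_pow j).sub_of_left (by
      rw [degree_X_pow, degree_X_pow]
      exact_mod_cast hlt)
  have hP : ((Polynomial.X ^ j - Polynomial.X ^ i) * h₀).Monic ∧
      0 < ((Polynomial.X ^ j - Polynomial.X ^ i) * h₀).eval 2 := by
    refine ⟨hmon.mul hm, ?_⟩
    rw [eval_mul]
    refine mul_pos ?_ h2
    simp only [eval_sub, eval_pow, eval_X, sub_pos]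
    exact pow_lt_pow_right₀ (by norm_num) hlt
  refine ⟨_, hP.1, hP.2, ?_⟩
  set h₁ := (Polynomial.X ^ j - Polynomial.X ^ i) * h₀ with hh₁
  have hker : K h₀ ≤ LinearMap.ker (bY hD fun k => aeval c h₁ (μ k)) := by
    refine hZK.trans (Submodule.span_le.2 ?_)
    rintro _ ⟨θ, y, hy, rfl⟩
    change bY hD _ _ = 0
    rw [← rho_bY]
    have h3 : bY hD (fun k => aeval c h₁ (μ k)) y = (f j ⟨y, hy⟩ : X) - f i ⟨y, hy⟩ := by
      simp only [f, bY_apply, hh₁, sub_mul, map_sub, LinearMap.sub_apply, bt_sub,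
        Finset.sum_sub_distrib]
    rw [h3, hf, sub_self, map_zero]
  have hrange : LinearMap.range (bY hD fun k => aeval c h₁ (μ k)) = ⊥ := by
    by_contra hne
    obtain ⟨y, hy⟩ := hx _ (by
      rintro θ _ ⟨y, rfl⟩
      exact ⟨_, (rho_bY hD _ θ y).symm⟩) hne
    have h4 : y ∈ K h₁ := by
      change bY hD _ y ∈ SS ρ d
      rw [hy]
      exact hxS
    rw [hmax _ ⟨h₁, hP, rfl⟩ (hKm _ _)] at h4
    exact hx0 (hy.symm.trans (hker h4))
  have hgen : ∀ t ∈ T, aeval c h₁ t = 0 := fun t ht => by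
    have h5 := LinearMap.congr_fun (LinearMap.range_eq_bot.1 hrange)
      (Pi.single ⟨t, ht⟩ (PiTensorProduct.tprod ℤ (bv F)))
    rw [bY_apply, Finset.sum_eq_single ⟨t, ht⟩ (fun k _ hk => by simp [Pi.single_eq_of_ne hk])
      (by simp), Pi.single_eq_same, bt, PiTensorProduct.lift.tprod, bet_bv] at h5
    exact Subtype.ext h5
  have : orb (tauM F ρ) T ≤ LinearMap.ker (aeval c h₁) := Submodule.span_le.2 (by
    rintro _ ⟨g, t, ht, rfl⟩
    change aeval c h₁ (tauM F ρ g t) = 0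
    rw [← Module.End.mul_apply, (hc.aeval h₁).1, Module.End.mul_apply, hgen t ht, map_zero])
  rw [hT, top_le_iff, LinearMap.ker_eq_top] at this
  exact this

theorem fin_M (hsn : SN) (hfin : RFin) (hnil : RNil) (hvn : VN Γ)
    (hγ : Subgroup.closure (Set.range γ) = ⊤) (hD : Deg ρ (d + 1)) (hN : Noeth ρ) {x₀ : X}
    (hx : ∀ U, InvR ρ U → U ≠ ⊥ → x₀ ∈ U) (hx0 : x₀ ≠ 0) (hS : Finite (SS ρ d)) :
    Finite (MM F ρ) := by
  classical
  have hfg : Group.FG Γ := Group.fg_iff.2 ⟨_, hγ, Set.finite_range γ⟩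
  obtain ⟨T, hT⟩ := fg_M (F := F) hD hN ⊤ ⟨fun _ _ _ => trivial, fun _ _ _ => trivial⟩
  have key : (∀ c, Com (tauM F ρ) (sgM F ρ) c → IsIntegral ℤ c) ∧
      ∃ n : ℕ, 0 < n ∧ ∀ x : MM F ρ, n • x = 0 := by
    by_cases hxS : x₀ ∈ SS ρ d
    · have acc := hsn Γ I γ hvn hγ d T
      constructor
      · intro c hc
        obtain ⟨h, hm, _, h0⟩ := nil_case hD T hT acc hS hx hx0 hxS hc
        exact ⟨h, hm, h0⟩
      · have hc : Com (tauM F ρ) (sgM F ρ) (algebraMap ℤ (Module.End ℤ (MM F ρ)) 2) :=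
          ⟨fun _ => Algebra.commutes _ _, fun _ => Algebra.commutes _ _⟩
        obtain ⟨h, _, h2, h0⟩ := nil_case hD T hT acc hS hx hx0 hxS hc
        rw [aeval_algebraMap_apply_eq_algebraMap_eval] at h0
        refine ⟨(h.eval 2).toNat, by omega, fun x => ?_⟩
        rw [← natCast_zsmul, Int.toNat_of_nonneg h2.le]
        exact LinearMap.congr_fun h0 x
    · let S' : Submodule ℤ X := Submodule.span ℤ (Set.range fun θ => ρ θ x₀)
      have hS' : InvR ρ S' := fun θ x hx' => by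
        have : S' ≤ S'.comap (ρ θ) := Submodule.span_le.2 (by
          rintro _ ⟨θ', rfl⟩
          exact Submodule.subset_span ⟨θ * θ', rho_mul _ _ _ _⟩)
        exact this hx'
      have hst : Stab (tauM F ρ) (sgM F ρ) (S'.comap (MM F ρ).subtype) :=
        ⟨fun g x hx' => hS' _ _ hx', fun σ x hx' => hS' _ _ hx'⟩
      refine hnil Γ hfg hvn d _ _ _ (acc_M hD hN) _ hst ?_ ?_ (fg_M hD hN _ hst)
      · intro hbot
        refine hxS (mem_SS_of (F := F) fun θ => ?_)
        have : pM F ρ (ρ θ x₀) ∈ S'.comap (MM F ρ).subtype :=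
          hS'.pj F.E (Submodule.subset_span ⟨θ, rfl⟩)
        rw [hbot, Submodule.mem_bot] at this
        exact congrArg Subtype.val this
      · intro U hU hne μ hμ
        have h1 : BB hD U ≠ ⊥ := fun h => hne (eq_bot_iff.2 fun ν hν => by
          have := mem_BB hD hν
          rw [h, Submodule.mem_bot] at this
          exact Subtype.ext this)
        have h2 : S' ≤ BB hD U := Submodule.span_le.2 (by
          rintro _ ⟨θ, rfl⟩
          exact invR_BB hD U θ _ (hx _ (invR_BB hD U) h1))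
        have := pM_BB hD hU (h2 hμ)
        rwa [Submodule.subtype_apply, pM_self] at this
  exact hfin Γ hfg hvn d _ _ _ sgM_tauM ⟨T, hT⟩ key.1 key.2

omit [DecidableEq I] in
/-- restriction to an invariant subgroup -/
noncomputable def sub (ρ : Representation ℤ (Th γ) X) (U : Submodule ℤ X) (hU : InvR ρ U) :
    Representation ℤ (Th γ) U := ρ.subrepresentation U fun θ x hx => hU θ x hx

theorem pj_sub {U : Submodule ℤ X} (hU : InvR ρ U) (E : Finset I) (x : U) :
    (pj (sub ρ U hU) E x : X) = pj ρ E x := by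
  rw [pj, pj, LinearMap.sum_apply, LinearMap.sum_apply, Submodule.coe_sum]
  rfl

omit [DecidableEq I] in
theorem invR_map {U : Submodule ℤ X} (hU : InvR ρ U) {V : Submodule ℤ U}
    (hV : InvR (sub ρ U hU) V) : InvR ρ (V.map U.subtype) := by
  rintro θ _ ⟨x, hx, rfl⟩
  exact ⟨_, hV θ x hx, rfl⟩

theorem rMain (hsn : SN) (hfin : RFin) (hnil : RNil) (hquo : RQuo) : RMain := by
  intro Γ I _ _ _ γ hvn hγ d
  induction d with
  | zero =>
    intro _ X _ ρ _ hD x₀ _ hx0
    have := hD ∅ (Finset.empty_subset _) rfl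
    rw [pj_empty] at this
    exact absurd (LinearMap.congr_fun this x₀) hx0
  | succ d ih =>
    intro hd X _ ρ hN hD x₀ hx hx0
    have hS : Finite (SS ρ d) := by
      by_cases hxS : x₀ ∈ SS ρ d
      · refine ih (by omega) _ (sub ρ _ (invR_SS ρ d)) (fun c hc hi => ?_) (fun E hE hc => ?_)
          ⟨x₀, hxS⟩ (fun U hU hne => ?_) fun h => hx0 (congrArg Subtype.val h)
        · obtain ⟨n, hn⟩ := hN (fun n => (c n).map (SS ρ d).subtype)
            (fun a b h => Submodule.map_mono (hc h)) fun n => invR_map _ (hi n)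
          exact ⟨n, fun k hk => Submodule.map_injective_of_injective
            (SS ρ d).injective_subtype (hn k hk)⟩
        · refine LinearMap.ext fun x => Subtype.ext ?_
          have := x.2 E hE hc 1
          rw [map_one, Module.End.one_apply] at this
          rw [pj_sub, this]
          rfl
        · obtain ⟨y, hy, hy'⟩ := hx _ (invR_map _ hU) fun h => hne
            (Submodule.map_injective_of_injective (SS ρ d).injective_subtype
              (by rw [h, Submodule.map_bot]))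
          rwa [show y = ⟨x₀, hxS⟩ from Subtype.ext hy'] at hy
      · have : SS ρ d = ⊥ := by
          by_contra h
          exact hxS (hx _ (invR_SS ρ d) h)
        rw [this]
        infer_instance
    refine hquo Γ I γ X ρ d (by omega) hD hS fun E hE hc => ?_
    obtain ⟨j, hj, hjE⟩ := Finset.exists_mem_notMem_of_card_lt_card
      (show E.card < (nw γ).card by omega)
    let b := Finset.equivFinOfCardEq hc
    let F : Fr γ d := ⟨fun l => b.symm l, Subtype.val_injective.comp b.symm.injective,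
      fun l => hE (b.symm l).2, j, hj, fun l h => hjE (h ▸ (b.symm l).2)⟩
    have hFE : F.E = E := Finset.eq_of_subset_of_card_le (fun i hi => by
      obtain ⟨l, rfl⟩ := F.mem_E.1 hi
      exact (b.symm l).2) (by rw [F.card_E, hc])
    have := fin_M (F := F) hsn hfin hnil hvn hγ hD hN hx hx0 hS
    have hle : LinearMap.range (pj ρ E) ≤ MM F ρ := by
      rintro _ ⟨x, rfl⟩
      rw [← hFE]
      exact pj_mem_MM F ρ x
    exact Finite.of_injective _ (Submodule.inclusion_injective hle)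

end Pool.Agent.MP_5c28a4_al.H89S.HausA
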