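import Pool.Agent.MP_5c28a4_al.H62S.Beta

/-!
The actions on the top component; the chain condition for stable subgroups.
-/

set_option autoImplicit false

namespace Pool.Agent.MP_5c28a4_al.H89S.HausA

variable {Γ I : Type} [Group Γ] [Fintype I] [DecidableEq I]
  {γ : I → Γ} {X : Type} [AddCommGroup X] {d : ℕ}

omit [DecidableEq I] in
theorem res_smul (θ : Th γ) (q : QQ Γ) (v : VV γ) : res θ (q • v) = q • res θ v := map_smul _ _ _

/-- diagonal substitutions -/
noncomputable def tauTh (F : Fr γ d) : (Fin d → Γ) →* Th γ where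
  toFun g := put F fun l => MonoidAlgebra.of ℤ Γ (g l)⁻¹ • bv F l
  map_one' := by
    simp only [Pi.one_apply, inv_one, map_one, one_smul]
    exact put_bv F
  map_mul' g g' := by
    rw [put_mul]
    congr 1
    funext l
    rw [res_smul, res_put_bv, smul_smul, ← map_mul, Pi.mul_apply, mul_inv_rev]

/-- permutations of the chosen generators -/
noncomputable def sgTh (F : Fr γ d) : Equiv.Perm (Fin d) →* Th γ where
  toFun σ := put F fun l => bv F (σ l)
  map_one' := put_bv F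
  map_mul' σ σ' := by
    rw [put_mul]
    congr 1
    funext l
    rw [res_put_bv, Equiv.Perm.mul_apply]

theorem tauTh_apply (F : Fr γ d) (g : Fin d → Γ) :
    tauTh F g = put F fun l => MonoidAlgebra.of ℤ Γ (g l)⁻¹ • bv F l := rfl

theorem sgTh_apply (F : Fr γ d) (σ : Equiv.Perm (Fin d)) :
    sgTh F σ = put F fun l => bv F (σ l) := rfl

theorem sg_tau (F : Fr γ d) (σ : Equiv.Perm (Fin d)) (g : Fin d → Γ) :
    sgTh F σ * tauTh F g = put F fun l => MonoidAlgebra.of ℤ Γ (g l)⁻¹ • bv F (σ l) := by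
  rw [sgTh_apply, tauTh_apply, put_mul]
  congr 1
  funext l
  rw [res_smul, res_put_bv]

theorem sg_tau_comm (F : Fr γ d) (σ : Equiv.Perm (Fin d)) (g : Fin d → Γ) :
    sgTh F σ * tauTh F (g ∘ σ) = tauTh F g * sgTh F σ := by
  rw [sg_tau, sgTh_apply, tauTh_apply, put_mul]
  congr 1
  funext l
  rw [res_put_bv]
  rfl

theorem kil_tau (F : Fr γ d) (g : Fin d → Γ) (l : Fin d) :
    kil γ {F.e l} * tauTh F g = tauTh F g * kil γ {F.e l} := by
  refine th_ext fun i => ?_
  rw [th_mul, th_mul, tauTh_apply]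
  by_cases h : ∃ l', F.e l' = i
  · obtain ⟨l', rfl⟩ := h
    rw [put_e, Submodule.coe_smul, map_smul, bv_coe]
    by_cases h' : l' = l
    · subst h'
      rw [kil_self (F.mem l'), smul_zero, map_zero]
    · rw [kil_ne (F.inj.ne h'), put_e, Submodule.coe_smul, bv_coe]
  · rw [put_not _ _ h, kil_ne fun h' => h ⟨l, h'.symm⟩, put_not _ _ h]

theorem kil_sg (F : Fr γ d) (σ : Equiv.Perm (Fin d)) (l : Fin d) :
    kil γ {F.e (σ l)} * sgTh F σ = sgTh F σ * kil γ {F.e l} := by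
  refine th_ext fun i => ?_
  rw [th_mul, th_mul, sgTh_apply]
  by_cases h : ∃ l', F.e l' = i
  · obtain ⟨l', rfl⟩ := h
    rw [put_e, bv_coe]
    by_cases h' : l' = l
    · subst h'
      rw [kil_self (F.mem _), kil_self (F.mem _), map_zero]
    · rw [kil_ne (F.inj.ne (σ.injective.ne h')), kil_ne (F.inj.ne h'), put_e, bv_coe]
  · rw [put_not _ _ h, kil_ne fun h' => h ⟨_, h'.symm⟩, kil_ne fun h' => h ⟨_, h'.symm⟩,
      put_not _ _ h]

/-- the action of `Γ ^ d` on the top component -/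
noncomputable def tauM (F : Fr γ d) (ρ : Representation ℤ (Th γ) X) :
    Representation ℤ (Fin d → Γ) (MM F ρ) :=
  Representation.subrepresentation (ρ.comp (tauTh F)) (MM F ρ) fun g x hx l => by
    change ρ _ (ρ (tauTh F g) x) = 0
    rw [← rho_mul, kil_tau, rho_mul, hx l, map_zero]

/-- the action of the symmetric group on the top component -/
noncomputable def sgM (F : Fr γ d) (ρ : Representation ℤ (Th γ) X) :
    Representation ℤ (Equiv.Perm (Fin d)) (MM F ρ) :=
  Representation.subrepresentation (ρ.comp (sgTh F)) (MM F ρ) fun σ x hx l => by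
    change ρ _ (ρ (sgTh F σ) x) = 0
    obtain ⟨l', rfl⟩ := σ.surjective l
    rw [← rho_mul, kil_sg, rho_mul, hx l', map_zero]

variable {F : Fr γ d} {ρ : Representation ℤ (Th γ) X}

theorem tauM_coe (g : Fin d → Γ) (μ : MM F ρ) : (tauM F ρ g μ : X) = ρ (tauTh F g) μ := rfl

theorem sgM_coe (σ : Equiv.Perm (Fin d)) (μ : MM F ρ) : (sgM F ρ σ μ : X) = ρ (sgTh F σ) μ := rfl

theorem sgM_tauM (σ : Equiv.Perm (Fin d)) (g : Fin d → Γ) :
    sgM F ρ σ * tauM F ρ (g ∘ σ) = tauM F ρ g * sgM F ρ σ := by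
  refine LinearMap.ext fun μ => Subtype.ext ?_
  rw [Module.End.mul_apply, Module.End.mul_apply, sgM_coe, tauM_coe, tauM_coe, sgM_coe, ← rho_mul,
    ← rho_mul, sg_tau_comm]

/-- generators of the relation module adapted to the chosen generators -/
noncomputable def gn (F : Fr γ d) :
    (Γ × Fin d) ⊕ {v : VV γ // res (kil γ F.E) v = v} → VV γ :=
  Sum.elim (fun p => MonoidAlgebra.of ℤ Γ p.1⁻¹ • bv F p.2) fun v => v.1

theorem span_gn (F : Fr γ d) : Submodule.span ℤ (Set.range (gn F)) = ⊤ := by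
  have h1 : ∀ (q : QQ Γ) (l : Fin d), q • bv F l ∈ Submodule.span ℤ (Set.range (gn F)) := by
    intro q l
    induction q using MonoidAlgebra.induction_on with
    | of g => exact Submodule.subset_span ⟨Sum.inl (g⁻¹, l), by simp [gn]⟩
    | add x y hx hy => rw [add_smul]; exact Submodule.add_mem _ hx hy
    | smul r x hx => rw [smul_assoc]; exact Submodule.smul_mem _ _ hx
  refine eq_top_iff.2 fun v _ => ?_
  have h2 : v = res (kil γ F.E) v + ∑ l, (v : I → QQ Γ) (F.e l) • bv F l := by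
    apply Subtype.ext
    rw [Submodule.coe_add, res_coe, kil_apply F.E_sub, Submodule.coe_sum, Fr.E,
      Finset.sum_image fun a _ b _ h => F.inj h]
    simp [bv_coe]
  rw [h2]
  refine Submodule.add_mem _ (Submodule.subset_span ⟨Sum.inr ⟨_, ?_⟩, rfl⟩)
    (Submodule.sum_mem _ fun l _ => h1 _ l)
  apply Subtype.ext
  rw [res_coe, res_coe, ← th_mul, kil_mul, Finset.union_self]

theorem ml_ext (F : Fr γ d) {N : Type} [AddCommGroup N]
    {φ φ' : MultilinearMap ℤ (fun _ : Fin d => VV γ) N}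
    (h1 : ∀ (w : Fin d → VV γ) (l' : Fin d), (∀ l, res (kil γ {F.e l'}) (w l) = w l) → φ w = φ' w)
    (h2 : ∀ (g : Fin d → Γ) (σ : Equiv.Perm (Fin d)),
      φ (fun l => MonoidAlgebra.of ℤ Γ (g l)⁻¹ • bv F (σ l)) =
        φ' fun l => MonoidAlgebra.of ℤ Γ (g l)⁻¹ • bv F (σ l)) : φ = φ' := by
  refine MultilinearMap.ext_of_span_eq_top (g := fun _ => gn F) (fun _ => span_gn F) fun v => ?_
  by_cases h : ∀ l', ∃ l g, v l = Sum.inl (g, l')
  · choose f g hf using h
    have hinj : Function.Injective f := fun a b hab => by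
      have := hf a
      rw [hab, hf b] at this
      simpa using (Prod.ext_iff.1 (Sum.inl_injective this)).2.symm
    let σ : Equiv.Perm (Fin d) := (Equiv.ofBijective f (Finite.injective_iff_bijective.1 hinj)).symm
    have hσ : ∀ l, f (σ l) = l := fun l => Equiv.ofBijective_apply_symm_apply f _ l
    have : (fun l => gn F (v l)) = fun l => MonoidAlgebra.of ℤ Γ (g (σ l))⁻¹ • bv F (σ l) := by
      funext l
      have := hf (σ l)
      rw [hσ] at this
      rw [this]
      rfl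
    rw [this]
    exact h2 (fun l => g (σ l)) σ
  · push Not at h
    obtain ⟨l', hl'⟩ := h
    refine h1 _ l' fun l => ?_
    rcases hv : v l with ⟨g, l''⟩ | ⟨u, hu⟩
    · have : l'' ≠ l' := fun h => hl' l g (by rw [hv, h])
      apply Subtype.ext
      change (kil γ {F.e l'}).1 (MonoidAlgebra.of ℤ Γ g⁻¹ • bas Γ (F.e l'')) =
        MonoidAlgebra.of ℤ Γ g⁻¹ • bas Γ (F.e l'')
      rw [map_smul, kil_ne (F.inj.ne this)]
    · change res _ u = u
      rw [← hu]
      apply Subtype.ext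
      rw [res_coe, res_coe, ← th_mul, kil_mul, Finset.union_eq_right.2]
      simpa using F.mem_E.2 ⟨l', rfl⟩

/-- projection to the top component -/
noncomputable def pM (F : Fr γ d) (ρ : Representation ℤ (Th γ) X) : X →ₗ[ℤ] MM F ρ :=
  (pj ρ F.E).codRestrict (MM F ρ) (pj_mem_MM F ρ)

theorem pM_coe (x : X) : (pM F ρ x : X) = pj ρ F.E x := rfl

theorem pM_self (μ : MM F ρ) : pM F ρ μ = μ := Subtype.ext (pj_MM μ.2)

theorem pM_bet_fix (hD : Deg ρ (d + 1)) (μ : MM F ρ) (w : Fin d → VV γ) (l' : Fin d)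
    (h : ∀ l, res (kil γ {F.e l'}) (w l) = w l) : pM F ρ (bet hD μ w) = 0 := by
  apply Subtype.ext
  refine pj_of_fix ρ (F.mem_E.2 ⟨l', rfl⟩) ?_
  rw [rho_bet]
  congr 1
  funext l
  exact h l

theorem pM_bet_perm (hD : Deg ρ (d + 1)) (μ : MM F ρ) (g : Fin d → Γ) (σ : Equiv.Perm (Fin d)) :
    pM F ρ (bet hD μ fun l => MonoidAlgebra.of ℤ Γ (g l)⁻¹ • bv F (σ l)) =
      sgM F ρ σ (tauM F ρ g μ) := by
  rw [← pM_self (sgM F ρ σ (tauM F ρ g μ)), bet_apply, ← sg_tau, rho_mul]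
  rfl

theorem pM_bet_mem (hD : Deg ρ (d + 1)) {U : Submodule ℤ (MM F ρ)}
    (hU : Stab (tauM F ρ) (sgM F ρ) U) {μ : MM F ρ} (hμ : μ ∈ U) (w : Fin d → VV γ) :
    pM F ρ (bet hD μ w) ∈ U := by
  have : (U.mkQ.comp (pM F ρ)).compMultilinearMap (bet hD μ) = 0 := by
    refine ml_ext F (fun w l' h => ?_) fun g σ => ?_
    · simp [pM_bet_fix hD μ w l' h]
    · simp only [LinearMap.compMultilinearMap_apply, LinearMap.comp_apply, pM_bet_perm,
        Submodule.mkQ_apply, zero_apply, Submodule.Quotient.mk_eq_zero]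
      exact hU.2 _ _ (hU.1 _ _ hμ)
  simpa using DFunLike.congr_fun this w

theorem pM_bet_com (hD : Deg ρ (d + 1)) {c : Module.End ℤ (MM F ρ)}
    (hc : Com (tauM F ρ) (sgM F ρ) c) (μ : MM F ρ) (w : Fin d → VV γ) :
    pM F ρ (bet hD (c μ) w) = c (pM F ρ (bet hD μ w)) := by
  have : (pM F ρ).compMultilinearMap (bet hD (c μ)) =
      (c.comp (pM F ρ)).compMultilinearMap (bet hD μ) := by
    refine ml_ext F (fun w l' h => ?_) fun g σ => ?_
    · simp [pM_bet_fix hD _ w l' h]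
    · simp only [LinearMap.compMultilinearMap_apply, LinearMap.comp_apply, pM_bet_perm]
      rw [← Module.End.mul_apply (tauM F ρ g), ← hc.1, ← Module.End.mul_apply (sgM F ρ σ),
        ← mul_assoc, ← hc.2]
      rfl
  exact DFunLike.congr_fun this w

theorem bet_bv (hD : Deg ρ (d + 1)) (μ : MM F ρ) : bet hD μ (bv F) = μ := by
  rw [bet_apply, put_bv, map_one, Module.End.one_apply]

/-- the invariant subgroup generated by a subgroup of the top component -/
noncomputable def BB (hD : Deg ρ (d + 1)) (U : Submodule ℤ (MM F ρ)) : Submodule ℤ X :=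
  Submodule.span ℤ {x | ∃ μ ∈ U, ∃ w, x = bet hD μ w}

theorem invR_BB (hD : Deg ρ (d + 1)) (U : Submodule ℤ (MM F ρ)) : InvR ρ (BB hD U) := by
  intro θ x hx
  have : BB hD U ≤ (BB hD U).comap (ρ θ) := Submodule.span_le.2 (by
    rintro _ ⟨μ, hμ, w, rfl⟩
    exact Submodule.subset_span ⟨μ, hμ, _, rho_bet hD μ θ w⟩)
  exact this hx

theorem BB_mono (hD : Deg ρ (d + 1)) {U V : Submodule ℤ (MM F ρ)} (h : U ≤ V) :
    BB hD U ≤ BB hD V := Submodule.span_mono (by
  rintro _ ⟨μ, hμ, w, rfl⟩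
  exact ⟨μ, h hμ, w, rfl⟩)

theorem mem_BB (hD : Deg ρ (d + 1)) {U : Submodule ℤ (MM F ρ)} {μ : MM F ρ} (h : μ ∈ U) :
    (μ : X) ∈ BB hD U := Submodule.subset_span ⟨μ, h, _, (bet_bv hD μ).symm⟩

theorem pM_BB (hD : Deg ρ (d + 1)) {U : Submodule ℤ (MM F ρ)}
    (hU : Stab (tauM F ρ) (sgM F ρ) U) {x : X} (hx : x ∈ BB hD U) : pM F ρ x ∈ U := by
  have : BB hD U ≤ U.comap (pM F ρ) := Submodule.span_le.2 (by
    rintro _ ⟨μ, hμ, w, rfl⟩
    exact pM_bet_mem hD hU hμ w)
  exact this hx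

theorem acc_M (hD : Deg ρ (d + 1)) (hN : Noeth ρ) (c : ℕ → Submodule ℤ (MM F ρ)) (hc : Monotone c)
    (hs : ∀ n, Stab (tauM F ρ) (sgM F ρ) (c n)) : ∃ n, ∀ k, n ≤ k → c k = c n := by
  obtain ⟨n, hn⟩ := hN (fun n => BB hD (c n)) (fun a b h => BB_mono hD (hc h))
    fun n => invR_BB hD _
  refine ⟨n, fun k hk => le_antisymm (fun μ hμ => ?_) (hc hk)⟩
  have h1 := mem_BB hD hμ
  rw [show BB hD (c k) = BB hD (c n) from hn k hk] at h1
  have := pM_BB hD (hs n) h1
  rwa [pM_self] at this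

/-- stable subgroups are finitely generated over the group -/
theorem stab_fg {H M : Type} [Group H] [Finite H] [AddCommGroup M] {G : Type} [Group G]
    (τ : Representation ℤ G M) (s : Representation ℤ H M)
    (hcomm : ∀ σ g, ∃ g', s σ * τ g = τ g' * s σ)
    (acc : ∀ c : ℕ → Submodule ℤ M, Monotone c → (∀ n, Stab τ s (c n)) →
      ∃ n, ∀ k, n ≤ k → c k = c n) (U : Submodule ℤ M) (hU : Stab τ s U) :
    ∃ T : Finset M, orb τ T = U := by
  classical
  have := Fintype.ofFinite H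
  let cl : Finset M → Finset M := fun T => (Finset.univ ×ˢ T).image fun p : H × M => s p.1 p.2
  have hcl : ∀ T x, x ∈ cl T ↔ ∃ σ, ∃ t ∈ T, s σ t = x := by
    intro T x
    simp [cl]
  have hst : ∀ T, Stab τ s (orb τ (cl T)) := by
    intro T
    constructor
    · intro g x hx
      have : orb τ (cl T) ≤ (orb τ (cl T)).comap (τ g) := Submodule.span_le.2 (by
        rintro _ ⟨g', t, ht, rfl⟩
        exact Submodule.subset_span ⟨g * g', t, ht, by rw [map_mul]; rfl⟩)
      exact this hx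
    · intro σ x hx
      have : orb τ (cl T) ≤ (orb τ (cl T)).comap (s σ) := Submodule.span_le.2 (by
        rintro _ ⟨g, t, ht, rfl⟩
        obtain ⟨σ', t', ht', rfl⟩ := (hcl T t).1 ht
        obtain ⟨g', hg'⟩ := hcomm σ g
        refine Submodule.subset_span ⟨g', s (σ * σ') t', (hcl T _).2 ⟨_, t', ht', rfl⟩, ?_⟩
        rw [map_mul, Module.End.mul_apply, ← Module.End.mul_apply (τ g'), ← hg']
        rfl)
      exact this hx
  have hle : ∀ T : Finset M, (∀ t ∈ T, t ∈ U) → orb τ (cl T) ≤ U := fun T hT =>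
    Submodule.span_le.2 (by
      rintro _ ⟨g, t, ht, rfl⟩
      obtain ⟨σ', t', ht', rfl⟩ := (hcl T t).1 ht
      exact hU.1 _ _ (hU.2 _ _ (hT _ ht')))
  obtain ⟨V, ⟨T, hT, rfl⟩, hmax⟩ := exists_max (Stab τ s) acc
    {V | ∃ T : Finset M, (∀ t ∈ T, t ∈ U) ∧ V = orb τ (cl T)}
    (by rintro _ ⟨T, _, rfl⟩; exact hst T) ⟨_, ∅, by simp, rfl⟩
  refine ⟨cl T, le_antisymm (hle T hT) fun x hx => ?_⟩
  have h1 : orb τ (cl (insert x T)) = orb τ (cl T) := hmax _ ⟨insert x T, fun t ht => by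
    rcases Finset.mem_insert.1 ht with rfl | h
    · exact hx
    · exact hT t h, rfl⟩ (Submodule.span_mono (by
      rintro _ ⟨g, t, ht, rfl⟩
      obtain ⟨σ', t', ht', rfl⟩ := (hcl T t).1 ht
      exact ⟨g, _, (hcl _ _).2 ⟨σ', t', Finset.mem_insert_of_mem ht', rfl⟩, rfl⟩))
  rw [← h1]
  exact Submodule.subset_span ⟨1, x, (hcl _ _).2 ⟨1, x, Finset.mem_insert_self _ _, by simp⟩,
    by simp⟩

theorem fg_M (hD : Deg ρ (d + 1)) (hN : Noeth ρ) (U : Submodule ℤ (MM F ρ))
    (hU : Stab (tauM F ρ) (sgM F ρ) U) : ∃ T : Finset (MM F ρ), orb (tauM F ρ) T = U :=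
  stab_fg _ _ (fun σ g => ⟨g ∘ σ.symm, by
    rw [← sgM_tauM]
    congr 2
    funext l
    simp⟩) (acc_M hD hN) U hU

/-- a permutation of the generators -/
noncomputable def prm (σ : Equiv.Perm I) (h : ∀ i, γ (σ i) = γ i) : Th γ :=
  mkTh γ (fun i => bas Γ (σ i)) fun i => by rw [del_bas, del_bas, h]

theorem prm_kil (σ : Equiv.Perm I) (h : ∀ i, γ (σ i) = γ i) (i : I) :
    prm σ h * kil γ {i} = kil γ {σ i} * prm σ h := by
  refine th_ext fun k => ?_
  rw [th_mul, th_mul, prm, mkTh_bas, kil_bas, kil_bas]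
  by_cases hk : k = i ∧ γ k = 1
  · rw [if_pos (by simpa [mem_nw] using hk), if_pos (by simpa [mem_nw, h] using hk), map_zero]
  · rw [if_neg (by simpa [mem_nw] using hk), if_neg (by simpa [mem_nw, h] using hk), mkTh_bas]

theorem prm_pj (ρ : Representation ℤ (Th γ) X) (σ : Equiv.Perm I) (h : ∀ i, γ (σ i) = γ i)
    (E : Finset I) : ρ (prm σ h) * pj ρ E = pj ρ (E.map σ.toEmbedding) * ρ (prm σ h) := by
  induction E using Finset.induction_on with
  | empty => simp [pj_empty]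
  | insert i E hi ih =>
    have : ρ (prm σ h) * (1 - ρ (kil γ {i})) = (1 - ρ (kil γ {σ i})) * ρ (prm σ h) := by
      rw [mul_sub, sub_mul, ← map_mul, ← map_mul, prm_kil, mul_one, one_mul]
    rw [Finset.map_insert, pj_insert ρ hi, pj_insert ρ (by simpa using hi), mul_assoc, ← ih,
      ← mul_assoc, ← mul_assoc, this]
    rfl

theorem mem_SS_of {x : X} (hx : ∀ θ, pj ρ F.E (ρ θ x) = 0) : x ∈ SS ρ d := by
  intro E hE hc θ
  let f : Fin d → {i // i ∈ nw γ} := fun l => ⟨F.e l, F.mem l⟩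
  let b := Finset.equivFinOfCardEq hc
  let g : Fin d → {i // i ∈ nw γ} := fun l => ⟨b.symm l, hE (b.symm l).2⟩
  obtain ⟨σ₀, hσ₀⟩ := Equiv.Perm.exists_extending_pair f g
    (fun a a' h => F.inj (congrArg Subtype.val h))
    fun a a' h => b.symm.injective (Subtype.ext (congrArg (fun z : {i // i ∈ nw γ} => z.1) h))
  let σ : Equiv.Perm I := Equiv.Perm.ofSubtype σ₀
  have hγ : ∀ i, γ (σ i) = γ i := fun i => by
    by_cases hi : i ∈ nw γ
    · rw [mem_nw.1 hi, ← mem_nw]
      exact (Equiv.Perm.ofSubtype_apply_mem_iff_mem σ₀ i).2 hi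
    · rw [Equiv.Perm.ofSubtype_apply_of_not_mem σ₀ hi]
  have hγ' : ∀ i, γ (σ.symm i) = γ i := fun i => by rw [← hγ (σ.symm i), Equiv.apply_symm_apply]
  have hσ : ∀ l, σ (F.e l) = b.symm l := fun l => by
    rw [Equiv.Perm.ofSubtype_apply_of_mem σ₀ (F.mem l)]
    exact congrArg Subtype.val (hσ₀ l)
  have hE' : F.E.map σ.toEmbedding = E := by
    refine Finset.eq_of_subset_of_card_le (fun i hi => ?_) (by rw [Finset.card_map, F.card_E, hc])
    obtain ⟨k, hk, rfl⟩ := Finset.mem_map.1 hi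
    obtain ⟨l, rfl⟩ := F.mem_E.1 hk
    rw [Equiv.coe_toEmbedding, hσ]
    exact (b.symm l).2
  have h1 : prm σ hγ * prm σ.symm hγ' = 1 := th_ext fun i => by
    rw [th_mul, th_one, prm, prm, mkTh_bas, mkTh_bas, Equiv.apply_symm_apply]
  rw [← one_mul θ, ← h1, mul_assoc, rho_mul, ← hE', ← Module.End.mul_apply, ← prm_pj,
    Module.End.mul_apply, hx, map_zero]

end Pool.Agent.MP_5c28a4_al.H89S.HausA
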